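import Pool.Agent.H74.V7.FinB

/-!
# The set of the pairs `(r, d)` with a failing tuple

`final_set`: if `Crit M` holds for all `M ≥ 2`, then for every `M ≥ 1` there is a finite set `S` of pairs
`(r, d)` such that for all `(r, d) ∉ S`, `r ≥ 2`, there is a failing tuple with multiplicities at most
`M` if and only if `2 ≤ d ≤ 2 M - 2`.
-/

namespace Pool.Agent.H74.V7

open Finset MvPolynomial Pool.Agent.H18.Fat Pool.Agent.H18.Ex Pool.Agent.H21.NX
  Pool.Agent.H21.NX.GenBX

/-- A power of a linear form through the point. -/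
theorem vanishes_linear_pow {n d m : ℕ} (c q : Fin n → ℂ) (hq : ∑ j, c j * q j = 0) (hm : m ≤ d) :
    VanishesToOrder ((∑ j, C (c j) * X j : MvPolynomial (Fin n) ℂ) ^ d) q m := by
  intro β hβ
  have h1 : shift q (∑ j, C (c j) * X j : MvPolynomial (Fin n) ℂ) = ∑ j, C (c j) * X j := by
    unfold shift
    rw [map_sum]
    have h2 : ∀ j, aeval (fun j => X j + C (q j) : Fin n → MvPolynomial (Fin n) ℂ) (C (c j) * X j) =
        C (c j) * X j + C (c j * q j) := by
      intro j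
      rw [map_mul, aeval_X, aeval_C, algebraMap_eq, mul_add, C_mul]
    rw [Finset.sum_congr rfl fun j _ => h2 j, Finset.sum_add_distrib, ← map_sum, hq, C_0, add_zero]
  have h3 : shift q ((∑ j, C (c j) * X j : MvPolynomial (Fin n) ℂ) ^ d) =
      (∑ j, C (c j) * X j) ^ d := by
    rw [← h1]
    conv_rhs => rw [h1]
    unfold shift at h1 ⊢
    rw [map_pow, h1]
    rw [h1]
  rw [h3]
  have h4 : (∑ j, C (c j) * X j : MvPolynomial (Fin n) ℂ).IsHomogeneous 1 := by
    refine IsHomogeneous.sum _ _ _ fun j _ => ?_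
    exact (isHomogeneous_C_mul_X (c j) j)
  have h5 := h4.pow d
  rw [one_mul] at h5
  exact h5.coeff_eq_zero (by omega)

/-- Two points always lie on a hyperplane. -/
theorem two_alive (r d : ℕ) (hr : 2 ≤ r) (p : Fin 2 → Fin (r + 1) → ℂ) (m : Fin 2 → ℕ)
    (hm : ∀ i, m i ≤ d) : 0 < Module.finrank ℂ (fatForms r d p m) := by
  classical
  let L : (Fin (r + 1) → ℂ) →ₗ[ℂ] (Fin 2 → ℂ) := Matrix.mulVecLin (Matrix.of p)
  have hker : LinearMap.ker L ≠ ⊥ := by
    intro h
    have h1 := LinearMap.finrank_le_finrank_of_injective (LinearMap.ker_eq_bot.1 h)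
    simp at h1
    omega
  obtain ⟨c, hc, hc0⟩ := Submodule.exists_mem_ne_zero_of_ne_bot hker
  have hcp : ∀ i, ∑ j, c j * p i j = 0 := by
    intro i
    have h2 := congrFun (LinearMap.mem_ker.1 hc) i
    have h3 : L c i = ∑ j, p i j * c j := rfl
    rw [h3] at h2
    rw [← h2.trans (Pi.zero_apply i).symm.symm]
    exact Finset.sum_congr rfl fun j _ => mul_comm _ _
  have hlin : (∑ j, C (c j) * X j : MvPolynomial (Fin (r + 1)) ℂ) ≠ 0 := by
    obtain ⟨j, hj⟩ := Function.ne_iff.1 hc0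
    intro h
    have h4 := congrArg (MvPolynomial.coeff (Finsupp.single j 1)) h
    rw [coeff_sum, coeff_zero, Finset.sum_eq_single j] at h4
    · rw [coeff_C_mul, coeff_X, if_pos rfl, mul_one] at h4
      exact hj h4
    · intro b _ hb
      rw [coeff_C_mul, coeff_X, if_neg, mul_zero]
      intro h5
      exact hb (Finsupp.single_left_injective one_ne_zero h5)
    · intro h5
      exact absurd (Finset.mem_univ j) h5
  have hmem : (∑ j, C (c j) * X j : MvPolynomial (Fin (r + 1)) ℂ) ^ d ∈ fatForms r d p m := by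
    refine ⟨?_, fun i => vanishes_linear_pow c (p i) (hcp i) (hm i)⟩
    have h4 : (∑ j, C (c j) * X j : MvPolynomial (Fin (r + 1)) ℂ).IsHomogeneous 1 :=
      IsHomogeneous.sum _ _ _ fun j _ => isHomogeneous_C_mul_X (c j) j
    have h5 := h4.pow d
    rwa [one_mul] at h5
  have hfin := finite_fat (d := d) p m
  rw [Module.finrank_pos_iff_exists_ne_zero]
  exact ⟨⟨_, hmem⟩, fun h => pow_ne_zero d hlin (congrArg Subtype.val h)⟩

/-- Two points fail for `2 ≤ d ≤ 2 M - 2`. -/
theorem two_fail (r d M : ℕ) (hr : 2 ≤ r) (hd : 2 ≤ d) (hM : d + 2 ≤ 2 * M) :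
    ∃ m : Fin 2 → ℕ, (∀ i, 1 ≤ m i ∧ m i ≤ M) ∧
      ForGeneralPoints r 2 fun p => ¬ ImposesMaximalConditions r d p m := by
  have h1 : 1 ≤ (d + 3) / 2 ∧ (d + 3) / 2 ≤ M := ⟨by omega, by omega⟩
  refine ⟨fun _ => (d + 3) / 2, fun _ => h1, ?_⟩
  refine (Pool.Agent.H51.TB.fixed_two r d 2 (by omega) (fun _ => (d + 3) / 2) (fun _ => by omega)
    ⟨0, 1, by decide, by omega⟩).mono fun p hp => hp.2 ?_
  exact two_alive r d hr p _ fun _ => by omega

/-- Degrees `0` and `1`. -/
theorem low_degree (r d k : ℕ) (hr : 1 ≤ r) (hd : d ≤ 1) (m : Fin k → ℕ) :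
    ForGeneralPoints r k fun p => ImposesMaximalConditions r d p m := by
  by_cases hall : ∀ i, m i ≤ d
  · exact max_of_gdim r d m (simple_exact r d hr m fun i => (hall i).trans hd)
  · push Not at hall
    obtain ⟨i, hi⟩ := hall
    refine max_of_gdim r d m ?_
    obtain ⟨p, hp⟩ := gdim_attained r d m
    have h0 := Pool.Agent.H21.HD.MainX.big_mult p m i hi
    rw [hp] at h0
    rw [h0]
    have h1 : (d + r).choose r ≤ ell r (m i) := by
      unfold ell
      exact Nat.choose_le_choose r (by omega)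
    have h2 : ell r (m i) ≤ ∑ i, ell r (m i) :=
      Finset.single_le_sum (f := fun i => ell r (m i)) (fun _ _ => Nat.zero_le _)
        (Finset.mem_univ i)
    omega

/-- The pairs `(r, d)` with a failing tuple with multiplicities at most `M`. -/
theorem final_set (hc : ∀ M, 2 ≤ M → Crit M) (M : ℕ) (hM : 1 ≤ M) : ∃ S : Finset (ℕ × ℕ),
    ∀ r d : ℕ, 1 ≤ r → (r, d) ∉ S →
      ((d ≤ 1 ∨ 2 * M ≤ d + 1) → ∀ (k : ℕ) (m : Fin k → ℕ), (∀ i, 1 ≤ m i ∧ m i ≤ M) →
        ForGeneralPoints r k fun p => ImposesMaximalConditions r d p m) ∧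
      (2 ≤ r → 2 ≤ d → d + 2 ≤ 2 * M → ∃ m : Fin 2 → ℕ, (∀ i, 1 ≤ m i ∧ m i ≤ M) ∧
        ForGeneralPoints r 2 fun p => ¬ ImposesMaximalConditions r d p m) := by
  classical
  obtain ⟨C, hC, r₀, h⟩ := bounded_final hc
  -- for every `r` a bound for the degree
  let D : ℕ → ℕ := fun r => ⌈C * M * (1 + (M : ℝ) / r) ^ 3 * (M : ℝ) ^ (22 / (r : ℝ))⌉₊
  refine ⟨(Finset.range (r₀ M)).sigma (fun r => Finset.range (D r)) |>.image
    (fun x => (x.1, x.2)), fun r d hr hS => ⟨fun hd k m hm => ?_, fun hr2 hd1 hd2 =>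
      two_fail r d M hr2 hd1 hd2⟩⟩
  by_cases hd1 : d ≤ 1
  · exact low_degree r d k hr hd1 m
  · have hd2 : 2 * M ≤ d + 1 := by omega
    refine h r M d k hr hM m hm ?_
    by_cases hr0 : r₀ M ≤ r
    · exact Or.inr ⟨hr0, hd2⟩
    · left
      have h1 : D r ≤ d := by
        by_contra h2
        apply hS
        rw [Finset.mem_image]
        have h3 : r ∈ Finset.range (r₀ M) := Finset.mem_range.2 (by omega)
        have h4 : d ∈ Finset.range (D r) := Finset.mem_range.2 (by omega)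
        exact ⟨⟨r, d⟩, Finset.mem_sigma.2 ⟨h3, h4⟩, rfl⟩
      have h2 : (D r : ℝ) ≤ d := by exact_mod_cast h1
      exact (Nat.le_ceil _).trans h2

end Pool.Agent.H74.V7
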