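import Pool.Agent.H74.SC.WinE

/-!
# The critical degree `d = 2 M - 1`: from the critical density to all tuples

`Crit M`: in degree `2 M - 1` and for `r` large the dimension is the expected one if the `M`-fold
points carry between `(1 - ε) N` and `(1 + ε) N` conditions and the others at most `ε N`,
`N = binom(2 M - 1 + r, r)`.  Then this holds for all tuples with multiplicities at most `M`.
-/

namespace Pool.Agent.H74.V7

open Finset MvPolynomial Pool.Agent.H18.Fat Pool.Agent.H18.Ex Pool.Agent.H21.NX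
  Pool.Agent.H74.SC.WinD Pool.Agent.H74.SC.WinE Pool.Agent.H21.NX.GenBX

/-- The assertion near the critical density. -/
def Crit (M : ℕ) : Prop :=
  ∃ ε : ℝ, 0 < ε ∧ ∃ r₀ : ℕ, ∀ r, r₀ ≤ r → ∀ (k : ℕ) (m : Fin k → ℕ), (∀ i, 1 ≤ m i ∧ m i ≤ M) →
    |(((univ.filter fun i => m i = M).card * ell r M : ℕ) : ℝ) - ((2 * M - 1 + r).choose r : ℝ)| ≤
      ε * ((2 * M - 1 + r).choose r : ℝ) →
    ((∑ i ∈ univ.filter fun i => m i < M, ell r (m i) : ℕ) : ℝ) ≤
      ε * ((2 * M - 1 + r).choose r : ℝ) →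
    gdim r (2 * M - 1) m = (2 * M - 1 + r).choose r - ∑ i, ell r (m i)

theorem le_gdim (r d : ℕ) (hr : 1 ≤ r) {κ : Type} [Fintype κ] (m : κ → ℕ) :
    (d + r).choose r ≤ gdim r d m + ∑ i, ell r (m i) := by
  have h1 := le_gdim_elim r d hr (fun i : Fin 0 => i.elim0) m
  rw [gdim_empty] at h1
  have h2 := gdim_comp_equiv r d (Equiv.emptySum (Fin 0) κ).symm
    (Sum.elim (fun i : Fin 0 => i.elim0) m)
  have h3 : (fun i => Sum.elim (fun i : Fin 0 => i.elim0) m
      ((Equiv.emptySum (Fin 0) κ).symm i)) = m := by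
    funext i
    rfl
  rw [h3] at h2
  omega

theorem max_of_gdim (r d : ℕ) {k : ℕ} (m : Fin k → ℕ)
    (h : gdim r d m = (d + r).choose r - ∑ i, ell r (m i)) :
    ForGeneralPoints r k fun p => ImposesMaximalConditions r d p m := by
  have hg : Gen r (Fin k) fun p => ImposesMaximalConditions r d p m := by
    refine (gen_gdim r d m).mono fun p hp => ?_
    unfold ImposesMaximalConditions
    rw [hp, h]
    have e1 : (((∑ i, ell r (m i) : ℕ)) : ℤ) = ∑ i, (((m i + r - 1).choose r : ℕ) : ℤ) := by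
      rw [Nat.cast_sum]
      rfl
    rw [← e1]
    omega
  exact hg

/-- The dimension of a subfamily is zero: the dimension is zero. -/
theorem gdim_zero_of_sub (r d : ℕ) {k : ℕ} (m : Fin k → ℕ) (S : Finset (Fin k))
    (h : gdim r d (fun i : Fin S.card => m (S.equivFin.symm i)) = 0) : gdim r d m = 0 := by
  have h1 := gdim_le_comp r d (fun i : Fin S.card => ((S.equivFin.symm i : S) : Fin k))
    (fun a b hab => S.equivFin.symm.injective (Subtype.ext hab)) m
  omega

theorem sum_sub {k : ℕ} (S : Finset (Fin k)) (f : Fin k → ℕ) :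
    ∑ i : Fin S.card, f (S.equivFin.symm i) = ∑ i ∈ S, f i := by
  rw [Equiv.sum_comp S.equivFin.symm fun i : S => f i]
  exact Finset.sum_coe_sort S f

theorem sum_filter_sub {k : ℕ} (S : Finset (Fin k)) (P : Fin k → Prop) [DecidablePred P]
    (f : Fin k → ℕ) :
    ∑ i ∈ univ.filter (fun i : Fin S.card => P (S.equivFin.symm i)), f (S.equivFin.symm i) =
      ∑ i ∈ S.filter P, f i := by
  rw [Finset.sum_filter, Finset.sum_filter]
  exact sum_sub S fun i => if P i then f i else 0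

theorem card_filter_sub {k : ℕ} (S : Finset (Fin k)) (P : Fin k → Prop) [DecidablePred P] :
    (univ.filter (fun i : Fin S.card => P (S.equivFin.symm i))).card = (S.filter P).card := by
  rw [Finset.card_eq_sum_ones (S.filter P), ← sum_filter_sub S P fun _ => 1]
  exact Finset.card_eq_sum_ones _

theorem exists_sub_sum {ι : Type} [DecidableEq ι] (f : ι → ℕ) (ℓ : ℕ) (t : ℝ) (ht : 0 ≤ t)
    (U : Finset ι) : (∀ i ∈ U, f i ≤ ℓ) → t < ((∑ i ∈ U, f i : ℕ) : ℝ) →
    ∃ T ⊆ U, ((∑ i ∈ T, f i : ℕ) : ℝ) ≤ t ∧ t < ((∑ i ∈ T, f i : ℕ) : ℝ) + ℓ := by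
  induction U using Finset.induction_on with
  | empty =>
    intro _ h
    rw [Finset.sum_empty, Nat.cast_zero] at h
    linarith
  | insert a s ha ih =>
    intro hf h
    by_cases h1 : t < ((∑ i ∈ s, f i : ℕ) : ℝ)
    · obtain ⟨T, hT, h2, h3⟩ := ih (fun i hi => hf i (Finset.mem_insert_of_mem hi)) h1
      exact ⟨T, hT.trans (Finset.subset_insert _ _), h2, h3⟩
    · refine ⟨s, Finset.subset_insert _ _, not_lt.1 h1, lt_of_lt_of_le h ?_⟩
      rw [Finset.sum_insert ha, Nat.cast_add, add_comm]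
      have : ((f a : ℕ) : ℝ) ≤ ℓ := by exact_mod_cast hf a (Finset.mem_insert_self _ _)
      linarith

/-- One point carries a small share of the conditions. -/
theorem ell_small (M : ℕ) (hM : 1 ≤ M) (ε : ℝ) (hε : 0 < ε) : ∃ r₀ : ℕ, ∀ r, r₀ ≤ r →
    ((ell r M : ℕ) : ℝ) ≤ ε * ((2 * M - 1 + r).choose r : ℝ) := by
  obtain ⟨R, hR⟩ := exists_nat_ge ((2 ^ (M - 1) * (2 * M) ^ (2 * M) : ℝ) / ε)
  refine ⟨R + M + 1, fun r hr => ?_⟩
  have h1 := ell_le_pow r M hM (by omega)
  have h2 := pow_le_ell r (2 * M) (by omega)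
  have h3 : ell r (2 * M) = (2 * M - 1 + r).choose r := by
    unfold ell
    rw [show 2 * M + r - 1 = 2 * M - 1 + r by omega]
  rw [h3] at h2
  have hr1 : (1 : ℝ) ≤ r := by exact_mod_cast (show 1 ≤ r by omega)
  have h4 : (2 ^ (M - 1) * (2 * M) ^ (2 * M) : ℝ) ≤ ε * r := by
    rw [div_le_iff₀ hε] at hR
    have : (R : ℝ) ≤ r := by exact_mod_cast (show R ≤ r by omega)
    nlinarith
  have h5 : (ell r M : ℝ) ≤ (2 * r) ^ (M - 1) := by exact_mod_cast h1
  have h6 : (r : ℝ) ^ (2 * M - 1) ≤ (2 * M) ^ (2 * M) * ((2 * M - 1 + r).choose r : ℝ) := by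
    exact_mod_cast h2
  have h7 : (r : ℝ) ≤ r ^ M := by
    calc (r : ℝ) = r ^ 1 := (pow_one _).symm
      _ ≤ r ^ M := pow_le_pow_right₀ hr1 hM
  have hN : (0 : ℝ) ≤ ((2 * M - 1 + r).choose r : ℝ) := Nat.cast_nonneg _
  have hrpos : (0 : ℝ) < (r : ℝ) ^ M := by positivity
  refine le_of_mul_le_mul_right ?_ hrpos
  calc (ell r M : ℝ) * r ^ M ≤ (2 * r) ^ (M - 1) * r ^ M :=
        mul_le_mul_of_nonneg_right h5 hrpos.le
    _ = 2 ^ (M - 1) * r ^ (2 * M - 1) := by
      rw [mul_pow, mul_assoc, ← pow_add]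
      congr 2
      omega
    _ ≤ 2 ^ (M - 1) * ((2 * M) ^ (2 * M) * ((2 * M - 1 + r).choose r : ℝ)) :=
        mul_le_mul_of_nonneg_left h6 (by positivity)
    _ = (2 ^ (M - 1) * (2 * M) ^ (2 * M)) * ((2 * M - 1 + r).choose r : ℝ) := by ring
    _ ≤ (ε * r) * ((2 * M - 1 + r).choose r : ℝ) := mul_le_mul_of_nonneg_right h4 hN
    _ ≤ (ε * r ^ M) * ((2 * M - 1 + r).choose r : ℝ) :=
        mul_le_mul_of_nonneg_right (mul_le_mul_of_nonneg_left h7 hε.le) hN
    _ = ε * ((2 * M - 1 + r).choose r : ℝ) * r ^ M := by ring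

/-- All tuples with multiplicities at most `M` in degree `2 M - 1`. -/
theorem crit_all (M : ℕ) (hM : 1 ≤ M) (hc : Crit M) : ∃ r₀ : ℕ, ∀ r, r₀ ≤ r → ∀ (k : ℕ)
    (m : Fin k → ℕ), (∀ i, 1 ≤ m i ∧ m i ≤ M) →
    ForGeneralPoints r k fun p => ImposesMaximalConditions r (2 * M - 1) p m := by
  classical
  obtain ⟨ε, hε, r₁, h1⟩ := hc
  obtain ⟨C, hC, r₂, K, h2⟩ := Pool.Agent.H51.TB.bounded (ε / 2) (by linarith)
  obtain ⟨r₃, h3⟩ := ell_small M hM (ε / 2) (by linarith)
  refine ⟨r₁ + r₂ M + r₃ + 1, fun r hr k m hm => ?_⟩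
  have hr1 : 1 ≤ r := by omega
  have hsub := fun S : Finset (Fin k) => h1 r (by omega) S.card
    (fun i => m (S.equivFin.symm i)) (fun i => hm _)
  obtain ⟨N, hN⟩ : ∃ N, N = (2 * M - 1 + r).choose r := ⟨_, rfl⟩
  obtain ⟨ℓ, hℓ⟩ : ∃ ℓ, ℓ = ell r M := ⟨_, rfl⟩
  have hsmall : (ℓ : ℝ) ≤ ε / 2 * N := by
    rw [hℓ, hN]
    exact h3 r (by omega)
  have hNnn : (0 : ℝ) ≤ N := Nat.cast_nonneg _
  have hℓpos : 1 ≤ ℓ := by
    rw [hℓ]
    exact ell_pos r hM
  rw [← hN, ← hℓ] at hsub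
  obtain ⟨A, hA⟩ : ∃ A : Finset (Fin k), A = univ.filter fun i => m i = M := ⟨_, rfl⟩
  by_cases hlow : ((A.card * ℓ : ℕ) : ℝ) ≤ (1 - ε / 2) * N
  · refine h2 r M (2 * M - 1) k hr1 hM m hm (Or.inr (Or.inr (Or.inl ⟨by omega, by omega, ?_⟩)))
    rw [hA, hℓ, hN] at hlow
    exact hlow
  push Not at hlow
  have hsumS : ∀ S : Finset (Fin k), (∀ i ∈ S, m i = M) →
      ∑ i ∈ S, ell r (m i) = S.card * ℓ := by
    intro S hS
    rw [Finset.sum_congr rfl fun i hi => by rw [hS i hi], Finset.sum_const, smul_eq_mul, hℓ]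
  -- a subfamily which kills everything
  have hkill : ∀ S : Finset (Fin k),
      |((((S.filter fun i => m i = M).card * ℓ : ℕ) : ℝ)) - N| ≤ ε * N →
      ((∑ i ∈ S.filter fun i => m i < M, ell r (m i) : ℕ) : ℝ) ≤ ε * N →
      (N : ℝ) ≤ ((∑ i ∈ S, ell r (m i) : ℕ) : ℝ) →
      ForGeneralPoints r k fun p => ImposesMaximalConditions r (2 * M - 1) p m := by
    intro S hS1 hS2 hS3
    have h5 := hsub S (by rw [card_filter_sub S fun i => m i = M]; exact hS1) (by
      rw [sum_filter_sub S (fun i => m i < M) fun i => ell r (m i)]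
      exact hS2)
    rw [sum_sub S fun i => ell r (m i)] at h5
    have h6 : N ≤ ∑ i ∈ S, ell r (m i) := by exact_mod_cast hS3
    have h7 := gdim_zero_of_sub r (2 * M - 1) m S (by omega)
    have h8 : ∑ i ∈ S, ell r (m i) ≤ ∑ i, ell r (m i) :=
      Finset.sum_le_sum_of_subset (Finset.subset_univ S)
    refine max_of_gdim r (2 * M - 1) m ?_
    rw [← hN]
    omega
  by_cases hover : N < A.card * ℓ
  · -- case A
    obtain ⟨S, hS, hcard⟩ := Finset.exists_subset_card_eq
      (show N / ℓ + 1 ≤ A.card from (Nat.div_lt_iff_lt_mul hℓpos).2 hover)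
    have hSM : ∀ i ∈ S, m i = M := fun i hi => by
      have := hS hi
      rw [hA, mem_filter] at this
      exact this.2
    have hf1 : S.filter (fun i => m i = M) = S := Finset.filter_true_of_mem hSM
    have hf2 : S.filter (fun i => m i < M) = ∅ := by
      rw [Finset.filter_eq_empty_iff]
      intro i hi
      have := hSM i hi
      omega
    have hd1 : N < (N / ℓ + 1) * ℓ := by
      have := Nat.lt_div_mul_add (a := N) hℓpos
      rw [Nat.add_mul, Nat.one_mul]
      exact this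
    have hd2 : (N / ℓ + 1) * ℓ ≤ N + ℓ := by
      rw [Nat.add_mul, Nat.one_mul]
      have := Nat.div_mul_le_self N ℓ
      omega
    have hd1' : (N : ℝ) < (((N / ℓ + 1) * ℓ : ℕ) : ℝ) := by exact_mod_cast hd1
    have hd2' : (((N / ℓ + 1) * ℓ : ℕ) : ℝ) ≤ N + ℓ := by exact_mod_cast hd2
    refine hkill S ?_ ?_ ?_
    · rw [hf1, hcard, abs_le]
      constructor <;> nlinarith
    · rw [hf2, Finset.sum_empty, Nat.cast_zero]
      positivity
    · rw [hsumS S hSM, hcard]
      exact hd1'.le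
  · push Not at hover
    have hover' : ((A.card * ℓ : ℕ) : ℝ) ≤ N := by exact_mod_cast hover
    have habs : |((A.card * ℓ : ℕ) : ℝ) - N| ≤ ε * N := by
      rw [abs_le]
      constructor <;> nlinarith
    by_cases hQ : ((∑ i ∈ univ.filter fun i => m i < M, ell r (m i) : ℕ) : ℝ) ≤ ε * N
    · -- directly
      have h5 := h1 r (by omega) k m hm (by rw [← hN, ← hℓ, ← hA]; exact habs)
        (by rw [← hN]; exact hQ)
      exact max_of_gdim r (2 * M - 1) m h5
    · push Not at hQ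
      obtain ⟨T, hT, hT1, hT2⟩ := exists_sub_sum (fun i => ell r (m i)) ℓ (ε * N) (by positivity)
        (univ.filter fun i => m i < M) (fun i _ => by rw [hℓ]; exact ell_mono r (hm i).2) hQ
      have hTM : ∀ i ∈ T, m i < M := fun i hi => (mem_filter.1 (hT hi)).2
      have hAM : ∀ i ∈ A, m i = M := fun i hi => by
        rw [hA, mem_filter] at hi
        exact hi.2
      have hdisj : Disjoint A T := by
        rw [Finset.disjoint_left]
        intro i hi hi'
        have := hAM i hi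
        have := hTM i hi'
        omega
      have hf1 : (A ∪ T).filter (fun i => m i = M) = A := by
        rw [Finset.filter_union, Finset.filter_true_of_mem hAM, Finset.filter_false_of_mem
          (fun i hi => (hTM i hi).ne), Finset.union_empty]
      have hf2 : (A ∪ T).filter (fun i => m i < M) = T := by
        rw [Finset.filter_union, Finset.filter_true_of_mem hTM, Finset.filter_false_of_mem
          (fun i hi => by rw [hAM i hi]; exact lt_irrefl _), Finset.empty_union]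
      refine hkill (A ∪ T) ?_ ?_ ?_
      · rw [hf1]
        exact habs
      · rw [hf2]
        exact hT1
      · rw [Finset.sum_union hdisj, hsumS A hAM, Nat.cast_add]
        nlinarith

end Pool.Agent.H74.V7
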