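import Pool.Agent.H74.V7.Fin

/-!
# The final theorems from `Crit M`

* `exact_crit`: for `r ≥ r₀(M)` no tuple with multiplicities at most `M` fails in degree `2 M - 1`;
* `bounded_final`: bounded multiplicities, all degrees `d ≥ 2 M - 1`;
* `fixed_final`: fixed degree, all tuples with `m_i + m_j ≤ d + 1`.
-/

namespace Pool.Agent.H74.V7

open Finset MvPolynomial Pool.Agent.H18.Fat Pool.Agent.H18.Ex Pool.Agent.H21.NX
  Pool.Agent.H74.SC.WinD Pool.Agent.H74.SC.WinE Pool.Agent.H21.NX.GenBX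

/-- Simple points. -/
theorem simple_exact (r d : ℕ) (hr : 1 ≤ r) {k : ℕ} (m : Fin k → ℕ) (hm : ∀ i, m i ≤ 1) :
    gdim r d m = (d + r).choose r - ∑ i, ell r (m i) := by
  have h1 := le_gdim r d hr m
  have hℓ : ell r 1 - 1 = 0 := by
    unfold ell
    rw [show 1 + r - 1 = r by omega, Nat.choose_self]
  by_cases h0 : gdim r d m = 0
  · omega
  · have h2 := alive r d hr 1 (by omega) (Fin k) m hm (by
      intro h3
      apply h0
      have : IsEmpty (Fin (ell r 1 - 1)) := by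
        rw [hℓ]
        infer_instance
      have h4 := gdim_comp_equiv r d (Equiv.sumEmpty (Fin k) (Fin (ell r 1 - 1))).symm
        (Sum.elim m fun _ : Fin (ell r 1 - 1) => 1)
      have h5 : (fun i => Sum.elim m (fun _ : Fin (ell r 1 - 1) => 1)
          ((Equiv.sumEmpty (Fin k) (Fin (ell r 1 - 1))).symm i)) = m := by
        funext i
        rfl
      rw [h5, h3] at h4
      exact h4)
    omega

/-- No tuple with multiplicities at most `M` fails in degree `2 M - 1`, `r ≥ r₀(M)`. -/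
theorem exact_crit (hc : ∀ M, 2 ≤ M → Crit M) (M : ℕ) (hM : 1 ≤ M) : ∃ r₀ : ℕ, ∀ r, r₀ ≤ r →
    ∀ (k : ℕ) (m : Fin k → ℕ), (∀ i, 1 ≤ m i ∧ m i ≤ M) →
    ForGeneralPoints r k fun p => ImposesMaximalConditions r (2 * M - 1) p m := by
  rcases Nat.lt_or_ge 1 M with h | h
  · exact crit_all M hM (hc M h)
  · refine ⟨1, fun r hr k m hm => max_of_gdim r _ m (simple_exact r _ hr m fun i => ?_)⟩
    have := (hm i).2
    omega

/-- Bounded multiplicities. -/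
theorem bounded_final (hc : ∀ M, 2 ≤ M → Crit M) : ∃ C : ℝ, 0 < C ∧ ∃ r₀ : ℕ → ℕ,
    ∀ r M d k : ℕ, 1 ≤ r → 1 ≤ M → ∀ m : Fin k → ℕ, (∀ i, 1 ≤ m i ∧ m i ≤ M) →
    (C * M * (1 + (M : ℝ) / r) ^ 3 * (M : ℝ) ^ (22 / (r : ℝ)) ≤ d ∨
      (r₀ M ≤ r ∧ 2 * M ≤ d + 1)) →
    ForGeneralPoints r k fun p => ImposesMaximalConditions r d p m := by
  obtain ⟨C, hC, r₁, K, h1⟩ := Pool.Agent.H51.TB.bounded 1 one_pos
  have h2 : ∀ M : ℕ, ∃ r₂ : ℕ, 1 ≤ M → ∀ r, r₂ ≤ r → ∀ (k : ℕ) (m : Fin k → ℕ),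
      (∀ i, 1 ≤ m i ∧ m i ≤ M) →
      ForGeneralPoints r k fun p => ImposesMaximalConditions r (2 * M - 1) p m := by
    intro M
    by_cases hM : 1 ≤ M
    · obtain ⟨r₂, h⟩ := exact_crit hc M hM
      exact ⟨r₂, fun _ => h⟩
    · exact ⟨0, fun h => absurd h hM⟩
  choose r₂ h2 using h2
  refine ⟨C, hC, fun M => r₁ M + r₂ M, fun r M d k hr hM m hm hcase => ?_⟩
  rcases hcase with h | ⟨h3, h4⟩
  · exact h1 r M d k hr hM m hm (Or.inl h)
  · have h3' : r₁ M + r₂ M ≤ r := h3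
    by_cases h5 : 2 * M ≤ d
    · exact h1 r M d k hr hM m hm (Or.inr (Or.inl ⟨by omega, h5⟩))
    · have h6 := h2 M hM r (by omega) k m hm
      rwa [show 2 * M - 1 = d by omega] at h6

/-- Fixed degree, pair sums at most `d + 1`. -/
theorem fixed_final (hc : ∀ M, 2 ≤ M → Crit M) (d : ℕ) : ∃ r₀ : ℕ, ∀ r : ℕ, r₀ ≤ r → ∀ (k : ℕ)
    (m : Fin k → ℕ), (∀ i, 1 ≤ m i) → (∀ i j, i ≠ j → m i + m j ≤ d + 1) →
    ForGeneralPoints r k fun p => ImposesMaximalConditions r d p m := by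
  obtain ⟨r₁, K, h₁⟩ := Pool.Agent.H51.TB.fixed_one d 1 one_pos
  obtain ⟨r₂, h₂⟩ : ∃ r₂ : ℕ, ∀ M, 2 * M = d + 1 → ∀ r, r₂ ≤ r → ∀ (k : ℕ) (m : Fin k → ℕ),
      (∀ i, 1 ≤ m i ∧ m i ≤ M) →
      ForGeneralPoints r k fun p => ImposesMaximalConditions r d p m := by
    by_cases hd : ∃ M, 2 * M = d + 1
    · obtain ⟨M, hM⟩ := hd
      obtain ⟨r₂, h⟩ := exact_crit hc M (by omega)
      refine ⟨r₂, fun M' hM' r hr k m hm => ?_⟩
      have h6 := h r hr k m fun i => ⟨(hm i).1, (hm i).2.trans (by omega)⟩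
      rwa [show 2 * M - 1 = d by omega] at h6
    · exact ⟨0, fun M hM => absurd ⟨M, hM⟩ hd⟩
  refine ⟨r₁ + r₂, fun r hr k m hm hp => ?_⟩
  by_cases hne : (univ.filter fun i => 2 * m i = d + 1).Nonempty
  · obtain ⟨i₀, hi₀⟩ := hne
    rw [mem_filter] at hi₀
    refine h₂ (m i₀) hi₀.2 r (by omega) k m fun i => ⟨hm i, ?_⟩
    by_cases hi : i = i₀
    · rw [hi]
    · have := hp i i₀ hi
      omega
  · rw [Finset.not_nonempty_iff_eq_empty] at hne
    refine h₁ r (by omega) k m hm hp (Or.inl ?_)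
    rw [hne, sum_empty, Nat.cast_zero]
    simp

end Pool.Agent.H74.V7
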