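import Pool.Agent.H74.V7.FinC

/-!
# Bounded multiplicities in high dimension, all degrees
-/

namespace Pool.Agent.H74.V7

open Finset MvPolynomial Pool.Agent.H18.Fat Pool.Agent.H18.Ex Pool.Agent.H21.NX

/-- Bounded multiplicities: the region of `bounded_final`, and for `r ≥ r₀(M)` all degrees. -/
theorem all_degrees (hc : ∀ M, 2 ≤ M → Crit M) : ∃ C : ℝ, 0 < C ∧ ∃ r₀ : ℕ → ℕ,
    ∀ r M d k : ℕ, 1 ≤ r → 1 ≤ M → ∀ m : Fin k → ℕ, (∀ i, 1 ≤ m i ∧ m i ≤ M) →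
    ((C * M * (1 + (M : ℝ) / r) ^ 3 * (M : ℝ) ^ (22 / (r : ℝ)) ≤ d ∨
        (r₀ M ≤ r ∧ ∀ i j, i ≠ j → m i + m j ≤ d + 1)) →
      ForGeneralPoints r k fun p => ImposesMaximalConditions r d p m) ∧
    ((∃ i j, i ≠ j ∧ d + 2 ≤ m i + m j) →
      ForGeneralPoints r k fun p =>
        (¬ ImposesMaximalConditions r d p m ↔ 0 < Module.finrank ℂ (fatForms r d p m))) := by
  obtain ⟨C, hC, r₁, h1⟩ := bounded_final hc
  choose r₂ h2 using fixed_final hc
  refine ⟨C, hC, fun M => r₁ M + ∑ d ∈ Finset.range (2 * M), r₂ d,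
    fun r M d k hr1 hM m hm => ⟨fun hor => ?_, fun h => ?_⟩⟩
  · rcases hor with h | ⟨hr, hp⟩
    · exact h1 r M d k hr1 hM m hm (Or.inl h)
    · have hr' : r₁ M + ∑ d ∈ Finset.range (2 * M), r₂ d ≤ r := hr
      rcases Nat.lt_or_ge d (2 * M) with h | h
      · refine h2 d r ?_ k m (fun i => (hm i).1) hp
        have h3 : r₂ d ≤ ∑ d ∈ Finset.range (2 * M), r₂ d :=
          Finset.single_le_sum (fun i _ => Nat.zero_le (r₂ i)) (Finset.mem_range.2 h)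
        omega
      · exact h1 r M d k hr1 hM m hm (Or.inr ⟨by omega, by omega⟩)
  · exact Pool.Agent.H51.TB.fixed_two r d k hr1 m (fun i => (hm i).1) h

end Pool.Agent.H74.V7
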